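import Mathlib

/-!
# Project EC: numbers for the sharp version of one stage
-/

set_option autoImplicit false

namespace Pool.Agent.W436.EC

open Filter

theorem poly_lt_r (p : Polynomial ℕ) (r : ℝ) (hr : 1 < r) :
    ∃ m₀ : ℕ, ∀ m ≥ m₀, ((p.eval m : ℕ) : ℝ) < r ^ m := by
  have hr0 : 0 < r := by linarith
  have key : Tendsto (fun m : ℕ => ((p.eval m : ℕ) : ℝ) / r ^ m) atTop (nhds 0) := by
    induction p using Polynomial.induction_on' with
    | add p q hp hq =>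
      have h := hp.add hq
      rw [add_zero] at h
      refine h.congr fun m => ?_
      rw [Polynomial.eval_add, Nat.cast_add, add_div]
    | monomial n a =>
      have h := (tendsto_pow_const_div_const_pow_of_one_lt n hr).const_mul (a : ℝ)
      rw [mul_zero] at h
      refine h.congr fun m => ?_
      rw [Polynomial.eval_monomial, Nat.cast_mul, Nat.cast_pow, mul_div_assoc]
  have h1 := key.eventually (gt_mem_nhds (show (0 : ℝ) < 1 by norm_num))
  obtain ⟨m₀, h2⟩ := eventually_atTop.1 h1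
  refine ⟨m₀, fun m hm => ?_⟩
  have h3 := h2 m hm
  rwa [div_lt_one (by positivity)] at h3

theorem nums (c : ℝ) (hc : 0 < c) (j T B : ℕ) (p : Polynomial ℕ) :
    ∀ᶠ N : ℕ in atTop, ∃ n : ℕ, j ≤ n ∧ B < N ∧ p.eval n < N ∧
      (((T + (j + 1) * 2 ^ n : ℕ) : ℝ)) ≤ (N : ℝ) ^ c ∧
      ((N : ℝ) + 2) ≤ 2 ^ ((1 / c + 1 / ((j : ℝ) + 1)) * n) := by
  have hj0 : (0 : ℝ) ≤ (j : ℝ) := Nat.cast_nonneg j
  obtain ⟨l, hl⟩ : ∃ l : ℝ, l = Real.logb 2 ((j : ℝ) + 2) := ⟨_, rfl⟩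
  have hl0 : 0 ≤ l := by
    rw [hl]; exact Real.logb_nonneg (by norm_num) (by linarith)
  have hl2 : (2 : ℝ) ^ l = (j : ℝ) + 2 := by
    rw [hl]; exact Real.rpow_logb (by norm_num) (by norm_num) (by linarith)
  have hr : 1 < (2 : ℝ) ^ (1 / c) := Real.one_lt_rpow (by norm_num) (by positivity)
  obtain ⟨m₀, hm₀⟩ := poly_lt_r p _ hr
  obtain ⟨K, hK⟩ : ∃ K : ℕ, K = max (max m₀ j) ⌈((j : ℝ) + 1) * ((1 + l) / c + 1)⌉₊ := ⟨_, rfl⟩
  have hK1 : m₀ ≤ K := by rw [hK]; exact le_trans (le_max_left _ _) (le_max_left _ _)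
  have hK2 : j ≤ K := by rw [hK]; exact le_trans (le_max_right _ _) (le_max_left _ _)
  have hK3 : ((j : ℝ) + 1) * ((1 + l) / c + 1) ≤ K := by
    refine (Nat.le_ceil _).trans ?_
    rw [hK]
    exact_mod_cast le_max_right _ _
  have t1 : Tendsto (fun N : ℕ => c * Real.logb 2 (N : ℝ)) atTop atTop :=
    ((Real.tendsto_logb_atTop (by norm_num)).comp tendsto_natCast_atTop_atTop).const_mul_atTop hc
  have t2 : Tendsto (fun N : ℕ => (N : ℝ) ^ c) atTop atTop :=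
    (tendsto_rpow_atTop hc).comp tendsto_natCast_atTop_atTop
  filter_upwards [t1.eventually_ge_atTop ((K : ℝ) + l),
    t2.eventually_ge_atTop ((T : ℝ) * ((j : ℝ) + 2)), eventually_ge_atTop 2,
    eventually_gt_atTop B] with N h1 h2 h3 h4
  have hN2 : (2 : ℝ) ≤ (N : ℝ) := by exact_mod_cast h3
  have hN0 : (0 : ℝ) < (N : ℝ) := by linarith
  obtain ⟨y, hy⟩ : ∃ y : ℝ, y = Real.logb 2 (N : ℝ) := ⟨_, rfl⟩
  rw [← hy] at h1
  have hy2 : (2 : ℝ) ^ y = (N : ℝ) := by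
    rw [hy]; exact Real.rpow_logb (by norm_num) (by norm_num) hN0
  have hnn : 0 ≤ c * y - l := by
    have : (0 : ℝ) ≤ K := Nat.cast_nonneg K
    linarith
  obtain ⟨n, hn⟩ : ∃ n : ℕ, n = ⌊c * y - l⌋₊ := ⟨_, rfl⟩
  have hn1 : (n : ℝ) ≤ c * y - l := by rw [hn]; exact Nat.floor_le hnn
  have hn2 : c * y - l < (n : ℝ) + 1 := by rw [hn]; exact Nat.lt_floor_add_one _
  have hKn : K ≤ n := by rw [hn]; exact Nat.le_floor (by linarith)
  have hKn' : (K : ℝ) ≤ n := by exact_mod_cast hKn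
  refine ⟨n, hK2.trans hKn, h4, ?_, ?_, ?_⟩
  · have h5 := hm₀ n (hK1.trans hKn)
    have h6 : ((2 : ℝ) ^ (1 / c)) ^ n ≤ (N : ℝ) := by
      rw [← Real.rpow_natCast, ← Real.rpow_mul (by norm_num), ← hy2]
      apply Real.rpow_le_rpow_of_exponent_le (by norm_num)
      rw [one_div, inv_mul_le_iff₀ hc]
      linarith
    exact_mod_cast lt_of_lt_of_le h5 h6
  · have h5 : (2 : ℝ) ^ n * ((j : ℝ) + 2) ≤ (N : ℝ) ^ c := by
      rw [← hl2, ← Real.rpow_natCast, ← Real.rpow_add (by norm_num), ← hy2,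
        ← Real.rpow_mul (by norm_num)]
      apply Real.rpow_le_rpow_of_exponent_le (by norm_num)
      linarith
    push_cast
    have h6 : (0 : ℝ) < (j : ℝ) + 2 := by linarith
    have h7 : ((T : ℝ) + ((j : ℝ) + 1) * 2 ^ n) * ((j : ℝ) + 2) ≤ (N : ℝ) ^ c * ((j : ℝ) + 2) := by
      have h8 : ((j : ℝ) + 1) * ((2 : ℝ) ^ n * ((j : ℝ) + 2)) ≤ ((j : ℝ) + 1) * (N : ℝ) ^ c :=
        mul_le_mul_of_nonneg_left h5 (by linarith)
      nlinarith
    exact le_of_mul_le_mul_right h7 h6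
  · have h5 : (N : ℝ) + 2 ≤ 2 ^ (y + 1) := by
      rw [Real.rpow_add (by norm_num), hy2, Real.rpow_one]
      linarith
    refine h5.trans ?_
    apply Real.rpow_le_rpow_of_exponent_le (by norm_num)
    have h6 : y < ((n : ℝ) + 1 + l) / c := by
      rw [lt_div_iff₀ hc]; linarith
    have h7 : (1 + l) / c + 1 ≤ 1 / ((j : ℝ) + 1) * n := by
      rw [div_mul_eq_mul_div, one_mul, le_div_iff₀ (by linarith)]
      have h8 : ((j : ℝ) + 1) * ((1 + l) / c + 1) ≤ n := hK3.trans hKn'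
      linarith
    have h9 : ((n : ℝ) + 1 + l) / c = 1 / c * n + (1 + l) / c := by
      field_simp; ring
    rw [add_mul]
    linarith

end Pool.Agent.W436.EC
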