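import Pool.Agent.W912.EC.Defs2
import Pool.Agent.W300.EC.Step
import Pool.Agent.W436.EC.Num

/-!
# Project EC: one stage of the construction, sharp version
-/

set_option autoImplicit false

namespace Pool.Agent.W436.EC

open Pool.Agent.NPC Pool.Agent.H620R2.Gauge Pool.Agent.H622R2.Exp Pool.Agent.H622R2.Ckt
open Pool.Agent.W900.CH Pool.Agent.W912.EC Pool.Agent.W300.EC
open Filter Finset

theorem step2 : S_STEP2 := by
  classical
  intro M q g c hc0 hg j A B T
  choose b hb using fun e : ℕ => run_local (M e)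
  obtain ⟨P, hP⟩ : ∃ P : Polynomial ℕ, P = ∑ e ∈ range (j + 1), q e := ⟨_, rfl⟩
  have hqP : ∀ e ≤ j, ∀ m : ℕ, (q e).eval m ≤ P.eval m := by
    intro e he m
    rw [hP, Polynomial.eval_finsetSum]
    exact single_le_sum (f := fun e => (q e).eval m) (fun _ _ => Nat.zero_le _)
      (mem_range.2 (Nat.lt_succ_of_le he))
  obtain ⟨N, hNg, n, hjn, hNB, hbig0, hT, hN2⟩ := (hg.and_eventually (nums c hc0 j T B
    (P + Polynomial.C 2 * Polynomial.X + Polynomial.C (2 * j + 4)))).exists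
  have hbig : P.eval n + 2 * n + (2 * j + 4) < N := by
    simpa only [Polynomial.eval_add, Polynomial.eval_mul, Polynomial.eval_C,
      Polynomial.eval_X] using hbig0
  obtain ⟨k, hk⟩ : ∃ k : ℕ, k = N - n - j - 1 := ⟨_, rfl⟩
  have hkN : n + k + j + 1 = N := by omega
  choose Q hQ1 hQ2 hQ3 using fun (e : ℕ) (x : List Bool) =>
    hb e A x (2 ^ (q e).eval x.length)
  obtain ⟨w, hw, hwQ⟩ := exists_key j n k (P.eval n) Q (by
    intro e he x hx
    refine (hQ1 e x).trans ?_
    rw [hx]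
    exact Nat.pow_le_pow_right (by norm_num) (hqP e he n)) (by omega)
  obtain ⟨Acc, hAcc⟩ : ∃ Acc : ℕ → List Bool → Prop, Acc = fun e x =>
      (M e).run A x (2 ^ (q e).eval x.length) [] = some [true] := ⟨_, rfl⟩
  obtain ⟨A', hA'⟩ : ∃ A' : Oracle, A' = fun y =>
      if ∃ e x, e ≤ j ∧ x.length = n ∧ y = cds j e w x then
        decide (∃ e x, e ≤ j ∧ x.length = n ∧ y = cds j e w x ∧ Acc e x) else A y := ⟨_, rfl⟩
  have hA'1 : ∀ y, (¬ ∃ e x, e ≤ j ∧ x.length = n ∧ y = cds j e w x) → A' y = A y := by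
    intro y hy
    rw [hA']
    exact if_neg hy
  have hA'2 : ∀ e ≤ j, ∀ x, x.length = n → (A' (cds j e w x) = true ↔ Acc e x) := by
    intro e he x hx
    have h1 : ∃ e' x', e' ≤ j ∧ x'.length = n ∧ cds j e w x = cds j e' w x' :=
      ⟨e, x, he, hx, rfl⟩
    rw [hA']
    show (if ∃ e' x', e' ≤ j ∧ x'.length = n ∧ cds j e w x = cds j e' w x' then
        decide (∃ e' x', e' ≤ j ∧ x'.length = n ∧ cds j e w x = cds j e' w x' ∧ Acc e' x')
        else A (cds j e w x)) = true ↔ Acc e x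
    rw [if_pos h1, decide_eq_true_iff]
    constructor
    · rintro ⟨e', x', he', hx', h2, h3⟩
      obtain ⟨h4, -, h5⟩ := cds_inj hx hx' hw hw h2
      rw [h4, h5]
      exact h3
    · intro h2
      exact ⟨e, x, he, hx, rfl, h2⟩
  have hlen : ∀ e ≤ j, ∀ x : List Bool, x.length = n → (cds j e w x).length = N := by
    intro e he x hx
    rw [cds_len he hx hw, hkN]
  obtain ⟨W, hW⟩ : ∃ W : Finset (List Bool),
      W = (range (j + 1)).biUnion (fun e => (Xs n).image (fun x => cds j e w x)) := ⟨_, rfl⟩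
  have hsubW : {y | A' y ≠ A y} ⊆ (W : Set (List Bool)) := by
    intro y hy
    by_contra hyW
    apply hy
    apply hA'1
    rintro ⟨e, x, he, hx, rfl⟩
    apply hyW
    rw [hW, mem_coe, mem_biUnion]
    refine ⟨e, mem_range.2 (Nat.lt_succ_of_le he), ?_⟩
    rw [mem_image]
    exact ⟨x, mem_Xs.2 hx, rfl⟩
  have hWc : W.card ≤ (j + 1) * 2 ^ n := by
    have h1 : W.card ≤ ∑ _e ∈ range (j + 1), 2 ^ n := by
      rw [hW]
      refine card_biUnion_le.trans (sum_le_sum fun e _ => ?_)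
      rw [← card_Xs n]
      exact card_image_le
    rwa [sum_const, card_range, smul_eq_mul] at h1
  obtain ⟨B', hB'⟩ : ∃ B' : ℕ, B' = N + ∑ e ∈ range (j + 1),
      (b e).eval (n + 2 ^ (q e).eval n) := ⟨_, rfl⟩
  have hB'N : N ≤ B' := by rw [hB']; exact Nat.le_add_right _ _
  refine ⟨n, N, (j + 1) * 2 ^ n, B', w, A', hNB, hB'N, hjn, hN2, ?_,
    W.finite_toSet.subset hsubW, ?_, ?_, hlen, ?_⟩
  · intro y hy
    apply hA'1
    rintro ⟨e, x, he, hx, rfl⟩
    exact hy (hlen e he x hx)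
  · refine (Set.ncard_le_ncard hsubW W.finite_toSet).trans ?_
    rw [Set.ncard_coe_finset]
    exact hWc
  · intro m hm
    exact hT.trans (hNg m hm).le
  · intro A'' hA'' e he x hx
    rw [hA'' _ (by rw [hlen e he x hx]; exact hB'N), hA'2 e he x hx, hAcc]
    show (M e).run A x (2 ^ (q e).eval x.length) [] = some [true] ↔ _
    rw [hQ3 e x A'' ?_]
    intro y hy
    have h1 : y.length ≤ B' := by
      have h2 := hQ2 e x y hy
      rw [hx] at h2
      refine h2.trans ?_
      rw [hB']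
      refine le_trans ?_ (Nat.le_add_left _ _)
      exact single_le_sum (f := fun e => (b e).eval (n + 2 ^ (q e).eval n))
        (fun _ _ => Nat.zero_le _) (mem_range.2 (Nat.lt_succ_of_le he))
    rw [hA'' y h1]
    apply hA'1
    rintro ⟨e', x', he', hx', rfl⟩
    exact hwQ e he x hx e' he' x' hx' hy

end Pool.Agent.W436.EC
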